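import Pool.Agent.Helper89.TQ.Spec

/-!
Part BRIDGE of TQ.
-/

set_option autoImplicit false

namespace Pool.Agent.Helper23.TQ.BRIDGE

open Finset Pool.Agent.R6.Trade Pool.Agent.Helper89.TQ

variable {N : Type} [Fintype N] [DecidableEq N]

lemma vec_insert (τ : N → Fin 3) {S : Finset N} {u : N} (hu : u ∉ S) (k : Fin 3) :
    vec τ (insert u S) k = vec τ S k + if τ u = k then 1 else 0 := by
  unfold vec
  rw [filter_insert]
  by_cases h : τ u = k
  · rw [if_pos h, if_pos h, card_insert_of_notMem (fun h' => hu (mem_filter.1 h').1)]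
  · rw [if_neg h, if_neg h, add_zero]

lemma vec_erase (τ : N → Fin 3) {S : Finset N} {v : N} (hv : v ∈ S) (k : Fin 3) :
    vec τ (S.erase v) k + (if τ v = k then 1 else 0) = vec τ S k := by
  have h := vec_insert τ (notMem_erase v S) k
  rw [insert_erase hv] at h
  exact h.symm

lemma vec_le (τ : N → Fin 3) (S : Finset N) (k : Fin 3) : vec τ S k ≤ nn τ k :=
  card_le_card (filter_subset_filter _ (subset_univ S))

lemma exists_out (τ : N → Fin 3) {S : Finset N} {i : Fin 3} (h : vec τ S i < nn τ i) :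
    ∃ u, u ∉ S ∧ τ u = i := by
  by_contra hcon
  push Not at hcon
  apply absurd h
  rw [not_lt]
  apply card_le_card
  intro v hv
  rw [mem_filter] at hv ⊢
  refine ⟨?_, hv.2⟩
  by_contra hvS
  exact hcon v hvS hv.2

lemma exists_in (τ : N → Fin 3) {S : Finset N} {i : Fin 3} (h : 0 < vec τ S i) :
    ∃ v, v ∈ S ∧ τ v = i := by
  obtain ⟨v, hv⟩ := card_pos.1 h
  rw [mem_filter] at hv
  exact ⟨v, hv⟩

/-- adding a voter -/
lemma add_step {W : Finset N → Prop} (hW : IsSimple W) (τ : N → Fin 3) {S : Finset N} (hS : W S)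
    {i : Fin 3} (h : vec τ S i < nn τ i) :
    ∃ S', W S' ∧ ∀ k, vec τ S' k = vec τ S k + if i = k then 1 else 0 := by
  obtain ⟨u, hu, rfl⟩ := exists_out τ h
  exact ⟨insert u S, hW.2.2 _ _ (subset_insert u S) hS, fun k => vec_insert τ hu k⟩

/-- replacing a voter -/
lemma rep_step {W : Finset N → Prop} (τ : N → Fin 3) (hAL : ∀ u v, AtLeast W u v ↔ τ u ≤ τ v)
    {S : Finset N} (hS : W S) {i j : Fin 3} (hij : i ≤ j) (h : vec τ S i < nn τ i)
    (h' : 0 < vec τ S j) :
    ∃ S', W S' ∧ ∀ k, vec τ S' k + (if j = k then 1 else 0) =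
      vec τ S k + if i = k then 1 else 0 := by
  obtain ⟨u, hu, rfl⟩ := exists_out τ h
  obtain ⟨v, hv, rfl⟩ := exists_in τ h'
  have hu' : u ∉ S.erase v := fun h => hu (mem_of_mem_erase h)
  refine ⟨insert u (S.erase v), ?_, fun k => ?_⟩
  · apply (hAL u v).2 hij _ hu' (notMem_erase v S)
    rwa [insert_erase hv]
  · rw [vec_insert τ hu' k, ← vec_erase τ hv k]
    ring

/-- the sum of the partial sums -/
def ms (x : Fin 3 → ℕ) : ℕ := 3 * x 0 + 2 * x 1 + x 2

lemma step {W : Finset N → Prop} (hW : IsSimple W) (τ : N → Fin 3)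
    (hAL : ∀ u v, AtLeast W u v ↔ τ u ≤ τ v) {S T : Finset N} (hS : W S)
    (h : GE (vec τ T) (vec τ S)) (hne : vec τ T ≠ vec τ S) :
    ∃ S', W S' ∧ GE (vec τ T) (vec τ S') ∧ ms (vec τ S) < ms (vec τ S') := by
  obtain ⟨h0, h1, h2⟩ := h
  have n0 := vec_le τ T 0
  have n1 := vec_le τ T 1
  have n2 := vec_le τ T 2
  have fin : ∀ S' : Finset N, W S' → GE (vec τ T) (vec τ S') → ms (vec τ S) < ms (vec τ S') →
      ∃ S', W S' ∧ GE (vec τ T) (vec τ S') ∧ ms (vec τ S) < ms (vec τ S') :=
    fun S' a b c => ⟨S', a, b, c⟩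
  unfold GE ms at *
  rcases Nat.lt_or_ge (vec τ S 0) (vec τ T 0) with c0 | c0
  · -- i = 0
    rcases Nat.lt_or_ge (vec τ S 0 + vec τ S 1) (vec τ T 0 + vec τ T 1) with c1 | c1
    · rcases Nat.lt_or_ge (vec τ S 0 + vec τ S 1 + vec τ S 2)
        (vec τ T 0 + vec τ T 1 + vec τ T 2) with c2 | c2
      · obtain ⟨S', hS', hv⟩ := add_step hW τ hS (i := 0) (by omega)
        have e0 := hv 0
        have e1 := hv 1
        have e2 := hv 2
        simp at e0 e1 e2
        exact fin S' hS' (by omega) (by omega)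
      · obtain ⟨S', hS', hv⟩ := rep_step τ hAL hS (i := 0) (j := 2) (by decide) (by omega)
          (by omega)
        have e0 := hv 0
        have e1 := hv 1
        have e2 := hv 2
        simp at e0 e1 e2
        exact fin S' hS' (by omega) (by omega)
    · obtain ⟨S', hS', hv⟩ := rep_step τ hAL hS (i := 0) (j := 1) (by decide) (by omega)
        (by omega)
      have e0 := hv 0
      have e1 := hv 1
      have e2 := hv 2
      simp at e0 e1 e2
      exact fin S' hS' (by omega) (by omega)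
  · rcases Nat.lt_or_ge (vec τ S 0 + vec τ S 1) (vec τ T 0 + vec τ T 1) with c1 | c1
    · rcases Nat.lt_or_ge (vec τ S 0 + vec τ S 1 + vec τ S 2)
        (vec τ T 0 + vec τ T 1 + vec τ T 2) with c2 | c2
      · obtain ⟨S', hS', hv⟩ := add_step hW τ hS (i := 1) (by omega)
        have e0 := hv 0
        have e1 := hv 1
        have e2 := hv 2
        simp at e0 e1 e2
        exact fin S' hS' (by omega) (by omega)
      · obtain ⟨S', hS', hv⟩ := rep_step τ hAL hS (i := 1) (j := 2) (by decide) (by omega)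
          (by omega)
        have e0 := hv 0
        have e1 := hv 1
        have e2 := hv 2
        simp at e0 e1 e2
        exact fin S' hS' (by omega) (by omega)
    · rcases Nat.lt_or_ge (vec τ S 0 + vec τ S 1 + vec τ S 2)
        (vec τ T 0 + vec τ T 1 + vec τ T 2) with c2 | c2
      · obtain ⟨S', hS', hv⟩ := add_step hW τ hS (i := 2) (by omega)
        have e0 := hv 0
        have e1 := hv 1
        have e2 := hv 2
        simp at e0 e1 e2
        exact fin S' hS' (by omega) (by omega)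
      · exfalso
        apply hne
        funext k
        fin_cases k
        · change vec τ T 0 = vec τ S 0
          omega
        · change vec τ T 1 = vec τ S 1
          omega
        · change vec τ T 2 = vec τ S 2
          omega

lemma ms_le {x y : Fin 3 → ℕ} (h : GE y x) : ms x ≤ ms y := by
  unfold GE at h
  unfold ms
  omega

lemma eq_of_ms {x y : Fin 3 → ℕ} (h : GE y x) (h' : ms y ≤ ms x) : x = y := by
  unfold GE at h
  unfold ms at h'
  funext k
  fin_cases k
  · change x 0 = y 0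
    omega
  · change x 1 = y 1
    omega
  · change x 2 = y 2
    omega

lemma GE_trans {x y z : Fin 3 → ℕ} (h : GE x y) (h' : GE y z) : GE x z := by
  unfold GE at *
  omega

lemma GE_refl (x : Fin 3 → ℕ) : GE x x := ⟨le_rfl, le_rfl, le_rfl⟩

lemma shift {W : Finset N → Prop} (hW : IsSimple W) (τ : N → Fin 3)
    (hAL : ∀ u v, AtLeast W u v ↔ τ u ≤ τ v) (T : Finset N) (m : ℕ) :
    ∀ S : Finset N, ms (vec τ T) ≤ ms (vec τ S) + m → W S → GE (vec τ T) (vec τ S) → W T := by
  induction m with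
  | zero =>
    intro S hm hS h
    have := eq_of_ms h (by omega)
    exact win_of_vec_eq hW.2.2 τ (fun a b hab => (hAL a b).2 hab.le) _ S T rfl this hS
  | succ m ih =>
    intro S hm hS h
    by_cases hne : vec τ T = vec τ S
    · exact win_of_vec_eq hW.2.2 τ (fun a b hab => (hAL a b).2 hab.le) _ S T rfl hne.symm hS
    · obtain ⟨S', h1, h2, h3⟩ := step hW τ hAL hS h hne
      exact ih S' (by omega) h1 h2

lemma exists_min {W : Finset N → Prop} (τ : N → Fin 3) (m : ℕ) :
    ∀ S : Finset N, ms (vec τ S) ≤ m → W S → ∃ v, MinWin W τ v ∧ GE (vec τ S) v := by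
  induction m with
  | zero =>
    intro S hm hS
    refine ⟨vec τ S, ⟨⟨S, hS, rfl⟩, fun S' hS' h => ?_⟩, GE_refl _⟩
    have := ms_le h
    exact eq_of_ms h (by omega)
  | succ m ih =>
    intro S hm hS
    by_cases hmin : MinWin W τ (vec τ S)
    · exact ⟨_, hmin, GE_refl _⟩
    · have : ∃ S', W S' ∧ GE (vec τ S) (vec τ S') ∧ vec τ S' ≠ vec τ S := by
        by_contra hcon
        push Not at hcon
        exact hmin ⟨⟨S, hS, rfl⟩, fun S' hS' h => hcon S' hS' h⟩
      obtain ⟨S', h1, h2, h3⟩ := this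
      have h4 : ms (vec τ S') < ms (vec τ S) := by
        by_contra h
        exact h3 (eq_of_ms h2 (by omega))
      obtain ⟨v, hv, hv'⟩ := ih S' (by omega) h1
      exact ⟨v, hv, GE_trans h2 hv'⟩

theorem main : S_BRIDGE := by
  intro N _ _ W τ a b hW hτ hAL hab hmin
  have ha : MinWin W τ a := (hmin a).2 (Or.inl rfl)
  have hb : MinWin W τ b := (hmin b).2 (Or.inr rfl)
  obtain ⟨⟨Sa, hSa, hva⟩, hma⟩ := ha
  obtain ⟨⟨Sb, hSb, hvb⟩, hmb⟩ := hb
  have hwin : ∀ S, W S ↔ Win a b (vec τ S) := by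
    intro S
    constructor
    · intro hS
      obtain ⟨v, hv, hv'⟩ := exists_min τ _ S le_rfl hS
      rcases (hmin v).1 hv with rfl | rfl
      · exact Or.inl hv'
      · exact Or.inr hv'
    · rintro (h | h)
      · rw [← hva] at h
        exact shift hW τ hAL S (ms (vec τ S)) Sa (by omega) hSa h
      · rw [← hvb] at h
        exact shift hW τ hAL S (ms (vec τ S)) Sb (by omega) hSb h
  refine ⟨fun i => hva ▸ vec_le τ Sa i, fun i => hvb ▸ vec_le τ Sb i, ?_, ?_, ?_, ?_, hwin⟩
  · intro h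
    have := hma Sb hSb (by rwa [hvb])
    exact hab (this.symm.trans hvb)
  · intro h
    have := hmb Sa hSa (by rwa [hva])
    exact hab (hva.symm.trans this)
  · obtain ⟨u, hu⟩ := hτ 0
    obtain ⟨v, hv⟩ := hτ 1
    have hn : ¬ AtLeast W v u := by
      rw [hAL, hu, hv]
      decide
    unfold AtLeast at hn
    push Not at hn
    obtain ⟨S, h1, h2, h3, h4⟩ := hn
    have u0 := vec_insert τ h2 0
    have u1 := vec_insert τ h2 1
    have u2 := vec_insert τ h2 2
    have v0 := vec_insert τ h1 0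
    have v1 := vec_insert τ h1 1
    have v2 := vec_insert τ h1 2
    rw [hu] at u0 u1 u2
    rw [hv] at v0 v1 v2
    simp at u0 u1 u2 v0 v1 v2
    have hle := vec_le τ (insert v S) 1
    rw [hwin] at h3 h4
    unfold Win GE at h3 h4
    omega
  · obtain ⟨u, hu⟩ := hτ 1
    obtain ⟨v, hv⟩ := hτ 2
    have hn : ¬ AtLeast W v u := by
      rw [hAL, hu, hv]
      decide
    unfold AtLeast at hn
    push Not at hn
    obtain ⟨S, h1, h2, h3, h4⟩ := hn
    have u0 := vec_insert τ h2 0
    have u1 := vec_insert τ h2 1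
    have u2 := vec_insert τ h2 2
    have v0 := vec_insert τ h1 0
    have v1 := vec_insert τ h1 1
    have v2 := vec_insert τ h1 2
    rw [hu] at u0 u1 u2
    rw [hv] at v0 v1 v2
    simp at u0 u1 u2 v0 v1 v2
    have hle := vec_le τ (insert v S) 2
    rw [hwin] at h3 h4
    unfold Win GE at h3 h4
    omega

end Pool.Agent.Helper23.TQ.BRIDGE
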